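import Pool.Agent.Lib.helper7.Paley

namespace Pool.Agent.Results.MP_522cd8_co.Jacket

open Matrix

variable {R : Type} [Ring R]

/-- normalised GBH matrix with entries in N -/
def NormGBH (N : Subgroup Rˣ) {v : ℕ} (M : Matrix (Fin v) (Fin v) Rˣ) : Prop :=
  2 ≤ v ∧ ¬ ringChar R ∣ v ∧ (∀ i j, M i j ∈ N) ∧
  (Matrix.of fun i j => (M i j : R)) * (Matrix.of fun i j => (((M j i)⁻¹ : Rˣ) : R)) =
    (v : R) • (1 : Matrix (Fin v) (Fin v) R) ∧
  (Matrix.of fun i j => (((M j i)⁻¹ : Rˣ) : R)) * (Matrix.of fun i j => (M i j : R)) =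
    (v : R) • (1 : Matrix (Fin v) (Fin v) R) ∧
  ∀ i j : Fin v, i.val = 0 ∨ j.val = 0 → M i j = 1

/-- after permuting rows and columns, first row and column are 1 and the first m and last m
rows and columns have entries 1 or -1 -/
def Border {v : ℕ} (K : Matrix (Fin v) (Fin v) Rˣ) (m : ℕ) : Prop :=
  ∃ σ τ : Equiv.Perm (Fin v),
    (∀ i j : Fin v, i.val = 0 ∨ j.val = 0 → K (σ i) (τ j) = 1) ∧
    ∀ i j : Fin v, (i.val < m ∨ v ≤ i.val + m) ∨ (j.val < m ∨ v ≤ j.val + m) →
      K (σ i) (τ j) = 1 ∨ K (σ i) (τ j) = -1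

def IsJacket (N : Subgroup Rˣ) {v : ℕ} (K : Matrix (Fin v) (Fin v) Rˣ) : Prop :=
  NormGBH N K ∧ Border K 1

def HasWidth {v : ℕ} (K : Matrix (Fin v) (Fin v) Rˣ) (w : ℕ) : Prop :=
  IsGreatest {m | 1 ≤ m ∧ 2 * m ≤ v ∧ Border K m} w

def IsPrimary (N : Subgroup Rˣ) {v : ℕ} (K : Matrix (Fin v) (Fin v) Rˣ) : Prop :=
  IsJacket N K ∧ ¬ ∃ (a b : ℕ) (K₁ : Matrix (Fin a) (Fin a) Rˣ) (K₂ : Matrix (Fin b) (Fin b) Rˣ)
    (σ τ : Fin v ≃ Fin a × Fin b), IsJacket ⊤ K₁ ∧ IsJacket ⊤ K₂ ∧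
      ∀ i j, K i j = K₁ (σ i).1 (τ j).1 * K₂ (σ i).2 (τ j).2

lemma order {v : ℕ} {M : Matrix (Fin v) (Fin v) (ℤ × ZMod 4)ˣ} (h : NormGBH ⊤ M) :
    v = 2 ∨ 4 ∣ v := by
  obtain ⟨h2, -, -, h3, -, -⟩ := h
  rcases eq_or_lt_of_le h2 with e | e
  · exact Or.inl e.symm
  right
  let A : Matrix (Fin v) (Fin v) ℤ := Matrix.of fun i j => (M i j : ℤ × ZMod 4).1
  have hu : ∀ u : (ℤ × ZMod 4)ˣ, ((u : ℤ × ZMod 4).1 = 1 ∨ (u : ℤ × ZMod 4).1 = -1) ∧
      ((u⁻¹ : (ℤ × ZMod 4)ˣ) : ℤ × ZMod 4).1 = (u : ℤ × ZMod 4).1 := by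
    intro u
    have := congrArg Prod.fst u.mul_inv
    rw [Prod.fst_mul, Prod.fst_one] at this
    rcases Int.eq_one_or_neg_one_of_mul_eq_one' this with ⟨a, b⟩ | ⟨a, b⟩
    · exact ⟨Or.inl a, by rw [a, b]⟩
    · exact ⟨Or.inr a, by rw [a, b]⟩
  have hA : A.IsHadamard := by
    refine IsHadamard.of_mul_conjTranspose
      (fun i j => Unitary.mem_iff_eq_one_or_eq_neg_one.2 (hu _).1) ?_
      (IsRegular.of_ne_zero (by simp; omega))
    ext i j
    have := congrArg Prod.fst (congrFun (congrFun h3 i) j)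
    simp only [Matrix.mul_apply, Matrix.of_apply, Prod.fst_sum, Prod.fst_mul, (hu _).2] at this
    simp only [Matrix.mul_apply, conjTranspose_apply, star_trivial, A, Matrix.of_apply, this]
    by_cases e : i = j <;> simp [e]
  simpa using hA.four_dvd_card (by simpa using e)

def un (x : ℤ) (c : Bool) : (ℤ × ZMod 4)ˣ :=
  if x = 1 then (if c then ⟨(1, -1), (1, -1), by decide, by decide⟩ else 1)
  else (if c then ⟨(-1, 1), (-1, 1), by decide, by decide⟩ else -1)

lemma un_inv (x : ℤ) (c : Bool) : (un x c)⁻¹ = un x c := by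
  unfold un
  split_ifs <;> rfl

lemma un_val (x : ℤ) (hx : x = 1 ∨ x = -1) (c : Bool) :
    (un x c : ℤ × ZMod 4) = (x, (x : ZMod 4) + if c then 2 else 0) := by
  rcases hx with rfl | rfl <;> cases c <;> decide

lemma un_pm (x : ℤ) (c : Bool) : (un x c = 1 ∨ un x c = -1) ↔ c = false := by
  unfold un
  cases c <;> split_ifs <;> simp_all <;> decide

lemma prod_eq {v : ℕ} (H : Matrix (Fin v) (Fin v) ℤ) (hpm : ∀ i j, H i j = 1 ∨ H i j = -1)
    (hH : H * Hᵀ = (v : ℤ) • (1 : Matrix (Fin v) (Fin v) ℤ)) (c : Fin v → Bool)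
    (hc : Even (Finset.univ.filter fun i => c i = true).card) :
    (Matrix.of fun i j => (un (H i j) (c i && c j) : ℤ × ZMod 4)) *
      (Matrix.of fun i j => (un (H j i) (c j && c i) : ℤ × ZMod 4)) =
      (v : ℤ × ZMod 4) • (1 : Matrix (Fin v) (Fin v) (ℤ × ZMod 4)) := by
  refine Matrix.ext fun i j => ?_
  have h0 := congrFun (congrFun hH i) j
  simp only [Matrix.mul_apply, transpose_apply] at h0
  simp only [Matrix.mul_apply, Matrix.of_apply, un_val _ (hpm _ _)]
  refine Prod.ext ?_ ?_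
  · simp only [Prod.fst_sum, Prod.fst_mul, h0]
    by_cases e : i = j <;> simp [e]
  · simp only [Prod.snd_sum, Prod.snd_mul]
    have e1 : ∀ k, ((H i k : ZMod 4) + if (c i && c k) = true then 2 else 0) *
        ((H j k : ZMod 4) + if (c j && c k) = true then 2 else 0) =
        ((H i k * H j k : ℤ) : ZMod 4) +
          (if xor (c i) (c j) then 2 else 0) * (if c k = true then 1 else 0) := by
      intro k
      rcases hpm i k with a | a <;> rcases hpm j k with b | b <;> rw [a, b] <;>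
        cases c i <;> cases c j <;> cases c k <;> decide
    simp only [e1, Finset.sum_add_distrib, ← Finset.mul_sum, Finset.sum_boole]
    rw [← Int.cast_sum, h0]
    obtain ⟨r, hr⟩ := hc
    rw [hr]
    have e2 : (if xor (c i) (c j) then (2 : ZMod 4) else 0) * ((r + r : ℕ) : ZMod 4) = 0 := by
      push_cast
      have : (2 : ZMod 4) * (r + r) = 4 * r := by ring
      split_ifs
      · rw [this, show (4 : ZMod 4) = 0 from rfl, zero_mul]
      · rw [zero_mul]
    rw [e2]
    by_cases e : i = j <;> simp [e]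

theorem result : ∃ (R : Type) (_ : CommRing R) (N : Subgroup Rˣ), ringChar R = 0 ∧
    Set.Infinite {n : ℕ | ∀ w, 1 ≤ w → w ≤ n →
      ∃ K : Matrix (Fin (2 * n)) (Fin (2 * n)) Rˣ, IsPrimary N K ∧ HasWidth K w} := by
  have hchar : ringChar (ℤ × ZMod 4) = 0 := by
    have := congrArg Prod.fst (ringChar.Nat.cast_ringChar (R := ℤ × ZMod 4))
    simpa using this
  refine ⟨ℤ × ZMod 4, inferInstance, ⊤, hchar, ?_⟩
  apply Set.infinite_of_forall_exists_gt
  intro N
  obtain ⟨q, hq1, hq2, hq3⟩ := Nat.forall_exists_prime_gt_and_modEq (2 * N + 4) (q := 8) (a := 3)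
    (by norm_num) (by norm_num)
  unfold Nat.ModEq at hq3
  refine ⟨(q + 1) / 2, ?_, by omega⟩
  obtain ⟨n, hn⟩ : ∃ n, (q + 1) / 2 = n := ⟨_, rfl⟩
  rw [hn]
  obtain ⟨H, hH, hH0⟩ := Pool.Agent.Lib.helper7.Paley.exists_had (v := 2 * n) hq2 (by omega)
    (by omega)
  have hpm : ∀ i j, H i j = 1 ∨ H i j = -1 := fun i j =>
    Unitary.mem_iff_eq_one_or_eq_neg_one.1 (hH.apply_mem i j)
  intro w hw1 hw2
  let c : Fin (2 * n) → Bool := fun i => decide (w ≤ i.val ∧ i.val + w < 2 * n)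
  have hcard : (Finset.univ.filter fun i => c i = true).card = 2 * n - w - w := by
    rw [← Nat.card_Ico, ← Finset.card_map Fin.valEmbedding]
    congr 1
    ext k
    simp only [Finset.mem_map, Finset.mem_filter, Finset.mem_univ, true_and, c, decide_eq_true_eq,
      Fin.valEmbedding_apply, Finset.mem_Ico]
    constructor
    · rintro ⟨i, h, rfl⟩; omega
    · intro h; exact ⟨⟨k, by omega⟩, by simp; omega, rfl⟩
  have hc : Even (Finset.univ.filter fun i => c i = true).card := by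
    rw [hcard]; exact ⟨n - w, by omega⟩
  let K : Matrix (Fin (2 * n)) (Fin (2 * n)) (ℤ × ZMod 4)ˣ := fun i j => un (H i j) (c i && c j)
  have hK0 : ∀ i j : Fin (2 * n), i.val = 0 ∨ j.val = 0 → K i j = 1 := by
    intro i j h
    have : (c i && c j) = false := by
      simp only [c, Bool.and_eq_false_iff, decide_eq_false_iff_not]; omega
    simp only [K, hH0 i j h, this]; rfl
  have hB : ∀ m, m ≤ w → Border K m := by
    intro m hm
    refine ⟨1, 1, hK0, fun i j h => (un_pm _ _).2 ?_⟩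
    simp only [c, Bool.and_eq_false_iff, decide_eq_false_iff_not, Equiv.Perm.one_apply]; omega
  refine ⟨K, ⟨⟨⟨by omega, by rw [hchar]; omega, fun _ _ => Subgroup.mem_top _, ?_, ?_, hK0⟩,
    hB 1 hw1⟩, ?_⟩, ⟨hw1, by omega, hB w le_rfl⟩, ?_⟩
  · simp only [K, un_inv]
    exact prod_eq H hpm (by simpa using hH.mul_conjTranspose) c hc
  · simp only [K, un_inv]
    have := prod_eq Hᵀ (fun i j => hpm j i) (by simpa using hH.conjTranspose_mul) c hc
    simpa [Bool.and_comm] using this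
  · rintro ⟨a, b, K₁, K₂, σ, -, h1, h2, -⟩
    have hab : 2 * n = a * b := by simpa using Fintype.card_congr σ
    rcases order h1.1 with e1 | ⟨a', e1⟩ <;> rcases order h2.1 with e2 | ⟨b', e2⟩
    · subst e1 e2; omega
    · subst e1 e2; omega
    · subst e1 e2; omega
    · subst e1 e2
      have : 4 * a' * (4 * b') = 8 * (2 * (a' * b')) := by ring
      omega
  · rintro m ⟨hm1, hm2, σ, τ, -, hm⟩
    by_contra hlt
    push Not at hlt
    let j0 : Fin (2 * n) := ⟨w, by omega⟩
    have hj0 : c j0 = true := by simp [c, j0]; omega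
    let d : Fin (2 * n) → Bool := fun i => decide (m ≤ i.val ∧ i.val + m < 2 * n)
    have hd : (Finset.univ.filter fun i => d i = true).card = 2 * n - m - m := by
      rw [← Nat.card_Ico, ← Finset.card_map Fin.valEmbedding]
      congr 1
      ext k
      simp only [Finset.mem_map, Finset.mem_filter, Finset.mem_univ, true_and, d,
        decide_eq_true_eq, Fin.valEmbedding_apply, Finset.mem_Ico]
      constructor
      · rintro ⟨i, h, rfl⟩; omega
      · intro h; exact ⟨⟨k, by omega⟩, by simp; omega, rfl⟩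
    have : (Finset.univ.filter fun i => c i = true).card ≤
        (Finset.univ.filter fun i => d i = true).card := by
      refine Finset.card_le_card_of_injOn σ.symm ?_ (σ.symm.injective.injOn)
      intro i hi
      have hi' : c i = true := (Finset.mem_filter.1 hi).2
      refine Finset.mem_coe.2 (Finset.mem_filter.2 ⟨Finset.mem_univ _, ?_⟩)
      by_contra hn'
      have := (un_pm _ _).1 (hm (σ.symm i) (τ.symm j0) (Or.inl (by
        simp only [d, decide_eq_true_eq] at hn'; omega)))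
      simp [hi', hj0] at this
    omega

end Pool.Agent.Results.MP_522cd8_co.Jacket
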